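import Mathlib

-- merged part: Pool.Agent.Work.MP_3070fc_an.Smooth
section
/-!
Smooth maps of the circle: a convenient class, Moebius involutions, and a diffeomorphism
supported in a small arc.
-/

set_option autoImplicit false

namespace Pool.Agent.Work.MP_3070fc_an

open Filter Topology Real Complex
open scoped ContDiff ComplexConjugate

/-- Maps of the circle that locally extend to smooth maps of the plane. -/
def Sm (F : Circle → Circle) : Prop :=
  ∀ z : Circle, ∃ E : ℂ → ℂ, ContDiffAt ℝ ∞ E z ∧ ∀ᶠ w in 𝓝 z, (F w : ℂ) = E w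

theorem continuous_coe_circle : Continuous (fun z : Circle => (z : ℂ)) :=
  continuous_subtype_val

theorem Sm.continuous {F : Circle → Circle} (hF : Sm F) : Continuous F := by
  have : Continuous (fun z : Circle => (F z : ℂ)) := by
    rw [continuous_iff_continuousAt]
    intro z
    obtain ⟨E, hE, hev⟩ := hF z
    have h1 : ContinuousAt (fun w : Circle => E w) z :=
      ContinuousAt.comp (f := fun w : Circle => (w : ℂ)) hE.continuousAt
        continuous_coe_circle.continuousAt
    exact h1.congr (hev.mono fun w hw => hw.symm)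
  exact Topology.IsInducing.subtypeVal.continuous_iff.mpr this

theorem Sm.id : Sm id := fun _ => ⟨fun w => w, contDiffAt_id, Eventually.of_forall fun _ => rfl⟩

theorem Sm.comp {F G : Circle → Circle} (hF : Sm F) (hG : Sm G) : Sm (F ∘ G) := by
  intro z
  obtain ⟨E, hE, hev⟩ := hF (G z)
  obtain ⟨E', hE', hev'⟩ := hG z
  refine ⟨E ∘ E', ?_, ?_⟩
  · apply ContDiffAt.comp _ _ hE'
    rw [← hev'.self_of_nhds]
    exact hE
  · have h1 := hG.continuous.continuousAt (x := z) |>.eventually hev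
    filter_upwards [h1, hev'] with w hw hw'
    simp only [Function.comp]
    rw [hw, hw']

theorem Sm.contDiff {F : Circle → Circle} (hF : Sm F) (k : ℕ) :
    ContDiff ℝ (k : WithTop ℕ∞) (fun θ : ℝ => (F (Circle.exp θ) : ℂ)) := by
  rw [contDiff_iff_contDiffAt]
  intro θ
  obtain ⟨E, hE, hev⟩ := hF (Circle.exp θ)
  have h0 : ContDiff ℝ ∞ (fun t : ℝ => Complex.exp (t * I)) := by
    apply ContDiff.cexp
    exact (Complex.ofRealCLM.contDiff).mul contDiff_const
  have h1 : ContDiffAt ℝ ∞ (fun t : ℝ => E (Complex.exp (t * I))) θ :=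
    ContDiffAt.comp (f := fun t : ℝ => Complex.exp (t * I)) θ hE h0.contDiffAt
  have h2 := (Circle.exp.continuous.continuousAt (x := θ)).eventually hev
  have h3 : ContDiffAt ℝ ∞ (fun θ : ℝ => (F (Circle.exp θ) : ℂ)) θ :=
    h1.congr_of_eventuallyEq (h2.mono fun t ht => ht)
  exact h3.of_le (by exact_mod_cast le_top)

theorem continuous_of_contDiff {F : Circle → Circle}
    (hF : ContDiff ℝ ((0 : ℕ) : WithTop ℕ∞) (fun θ : ℝ => (F (Circle.exp θ) : ℂ))) :
    Continuous F := by
  have h1 : Continuous (fun θ : ℝ => F (Circle.exp θ)) :=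
    Topology.IsInducing.subtypeVal.continuous_iff.mpr hF.continuous
  have h2 : Topology.IsQuotientMap Circle.exp :=
    Circle.isCoveringMap_exp.isQuotientMap Circle.exp_surjective
  exact h2.continuous_iff.mpr h1

/-! ### Moebius involutions -/

theorem mob_den_ne {c : ℂ} (hc : 1 < normSq c) (z : Circle) : 1 - conj c * z ≠ 0 := by
  intro h
  have h1 : conj c * z = 1 := by linear_combination -h
  have h2 := congrArg normSq h1
  rw [map_mul, normSq_conj, Circle.normSq_coe, map_one] at h2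
  linarith

theorem mob_normSq {c : ℂ} (z : Circle) : normSq (c - z) = normSq (1 - conj c * z) := by
  have h := Circle.normSq_coe z
  rw [normSq_apply] at h
  simp only [normSq_apply, sub_re, sub_im, mul_re, mul_im, conj_re, conj_im, one_re, one_im]
  linear_combination (1 - c.re * c.re - c.im * c.im) * h

/-- The involution `z ↦ (c - z) / (1 - conj c * z)` of the circle. -/
noncomputable def mob {c : ℂ} (hc : 1 < normSq c) (z : Circle) : Circle :=
  ⟨(c - z) / (1 - conj c * z), mem_sphere_zero_iff_norm.2 <| by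
    have h1 : normSq ((c - z) / (1 - conj c * z)) = 1 := by
      rw [map_div₀, mob_normSq, div_self]
      exact fun h => mob_den_ne hc z (normSq_eq_zero.mp h)
    rw [normSq_eq_norm_sq] at h1
    have h2 := norm_nonneg ((c - z) / (1 - conj c * z))
    nlinarith⟩

theorem coe_mob {c : ℂ} (hc : 1 < normSq c) (z : Circle) :
    (mob hc z : ℂ) = (c - z) / (1 - conj c * z) := rfl

theorem mob_mob {c : ℂ} (hc : 1 < normSq c) (z : Circle) : mob hc (mob hc z) = z := by
  apply Circle.ext
  have h1 := mob_den_ne hc z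
  have h2 := mob_den_ne hc (mob hc z)
  rw [coe_mob, div_eq_iff h2, coe_mob]
  have h3 := div_mul_cancel₀ (c - z) h1
  generalize (c - z) / (1 - conj c * z) = q at h3 ⊢
  linear_combination -h3

theorem mob_sm {c : ℂ} (hc : 1 < normSq c) : Sm (mob hc) := by
  intro z
  refine ⟨fun w => (c - w) / (1 - conj c * w), ?_, Eventually.of_forall fun _ => rfl⟩
  have h1 : ContDiffAt ℂ ∞ (fun w : ℂ => (c - w) / (1 - conj c * w)) z :=
    ContDiffAt.div (contDiffAt_const.sub contDiffAt_id)
      (contDiffAt_const.sub (contDiffAt_const.mul contDiffAt_id)) (mob_den_ne hc z)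
  exact h1.restrict_scalars ℝ

theorem mob_pingpong {c : ℂ} (hc : 1 < normSq c) (z : Circle) (hz : (conj c * z).re < 1) :
    1 < (conj c * (mob hc z : ℂ)).re := by
  have h1 := mob_den_ne hc z
  have h2 : conj c * (mob hc z : ℂ) = ((normSq c : ℂ) - conj c * z) / (1 - conj c * z) := by
    rw [coe_mob, normSq_eq_conj_mul_self]
    field_simp
  have h3 : normSq (conj c * z) = normSq c := by
    rw [map_mul, normSq_conj, Circle.normSq_coe, mul_one]
  rw [h2]
  clear h2
  generalize conj c * (z : ℂ) = w at *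
  generalize normSq c = ρ at *
  have h4 : 0 < normSq (1 - w) := normSq_pos.mpr h1
  rw [div_re, ← add_div, lt_div_iff₀ h4]
  rw [normSq_apply] at h3
  simp only [normSq_apply, sub_re, sub_im, ofReal_re, ofReal_im, one_re, one_im]
  nlinarith

/-- The involution as a permutation. -/
noncomputable def mobPerm {c : ℂ} (hc : 1 < normSq c) : Equiv.Perm Circle :=
  ⟨mob hc, mob hc, mob_mob hc, mob_mob hc⟩

/-! ### A diffeomorphism of the line supported near the origin -/

theorem exists_line_diffeo : ∃ f : ℝ ≃o ℝ, ContDiff ℝ ∞ f ∧ ContDiff ℝ ∞ f.symm ∧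
    (∀ x, 1 / 2 ≤ |x| → f x = x) ∧ (∀ x, x ≤ f x) ∧ 0 < f 0 := by
  let b : ContDiffBump (0 : ℝ) := ⟨1 / 4, 1 / 2, by norm_num, by norm_num⟩
  have hb : ContDiff ℝ ∞ b := b.contDiff
  have hbd : Continuous (deriv b) := hb.continuous_deriv (by simp)
  have hbs : HasCompactSupport (deriv b) := b.hasCompactSupport.deriv
  obtain ⟨M, hM⟩ := hbd.bounded_above_of_compact_support hbs
  have hM0 : 0 ≤ M := (norm_nonneg _).trans (hM 0)
  set ε : ℝ := 1 / (2 * (M + 1)) with hε
  have hε0 : 0 < ε := by positivity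
  let g : ℝ → ℝ := fun x => x + ε * b x
  have hg : ContDiff ℝ ∞ g := contDiff_id.add (contDiff_const.mul hb)
  have hgd : ∀ x, HasDerivAt g (1 + ε * deriv b x) x := fun x =>
    (hasDerivAt_id x).add
      (((hb.differentiable (by simp)) x).hasDerivAt.const_mul ε)
  have hpos : ∀ x, 0 < 1 + ε * deriv b x := by
    intro x
    have h1 := hM x
    rw [Real.norm_eq_abs, abs_le] at h1
    have h2 : ε * (M + 1) = 1 / 2 := by rw [hε]; field_simp
    nlinarith
  have hmono : StrictMono g := strictMono_of_deriv_pos fun x => by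
    rw [(hgd x).deriv]; exact hpos x
  have hge : ∀ x, x ≤ g x := fun x => by
    have := b.nonneg (x := x)
    show x ≤ x + ε * b x
    nlinarith
  have hid : ∀ x, 1 / 2 ≤ |x| → g x = x := by
    intro x hx
    have : b x = 0 := b.zero_of_le_dist (by rw [Real.dist_eq, sub_zero]; exact hx)
    show x + ε * b x = x
    rw [this]; ring
  have hsurj : Function.Surjective g := by
    apply hg.continuous.surjective
    · exact tendsto_atTop_mono hge tendsto_id
    · apply tendsto_id.congr'
      filter_upwards [eventually_le_atBot (-1 : ℝ)] with x hx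
      exact (hid x (by rw [abs_of_nonpos (by linarith)]; linarith)).symm
  let f : ℝ ≃o ℝ := hmono.orderIsoOfSurjective g hsurj
  refine ⟨f, hg, ?_, hid, hge, ?_⟩
  · exact f.toHomeomorph.contDiff_symm_deriv (fun x => (hpos x).ne') hgd hg
  · show 0 < 0 + ε * b 0
    have : b 0 = 1 := b.one_of_mem_closedBall (Metric.mem_closedBall_self (by norm_num [b]))
    rw [this]; linarith

/-- The circle map induced by a map of the line through the argument chart. -/
noncomputable def circ (f : ℝ → ℝ) (z : Circle) : Circle := Circle.exp (f (arg z))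

theorem circ_fix {f : ℝ → ℝ} (hf : ∀ x, 1 / 2 ≤ |x| → f x = x) (z : Circle)
    (hz : (z : ℂ).re ≤ 4 / 5) : circ f z = z := by
  unfold circ
  rw [hf, Circle.exp_arg]
  by_contra hlt
  rw [not_le] at hlt
  have h1 : Real.cos (arg z) = (z : ℂ).re := by
    rw [Complex.cos_arg (Circle.coe_ne_zero z), Circle.norm_coe, div_one]
  have h2 := Real.one_sub_sq_div_two_le_cos (x := arg z)
  have h3 : (arg z) ^ 2 < (1 / 2) ^ 2 := sq_lt_sq' (abs_lt.mp hlt).1 (abs_lt.mp hlt).2
  nlinarith

theorem circ_sm {f : ℝ → ℝ} (hf : ∀ x, 1 / 2 ≤ |x| → f x = x) (hs : ContDiff ℝ ∞ f) :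
    Sm (circ f) := by
  intro z
  by_cases hz : (z : ℂ).re < 4 / 5
  · refine ⟨fun w => w, contDiffAt_id, ?_⟩
    have h1 : IsOpen {w : Circle | (w : ℂ).re < 4 / 5} :=
      isOpen_lt (Complex.continuous_re.comp continuous_coe_circle) continuous_const
    filter_upwards [h1.mem_nhds hz] with w hw
    rw [circ_fix hf w (le_of_lt hw)]
  · refine ⟨fun w => Complex.exp ((f (log w).im : ℝ) * I), ?_, Eventually.of_forall fun w => ?_⟩
    · have h1 : (z : ℂ) ∈ slitPlane := Or.inl (by linarith [not_lt.mp hz])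
      have h2 : ContDiffAt ℝ ∞ (fun w : ℂ => log w) z :=
        (Complex.contDiffAt_log h1).restrict_scalars ℝ
      have h3 : ContDiffAt ℝ ∞ (fun w : ℂ => (log w).im) z :=
        ContDiffAt.comp (g := fun w : ℂ => w.im) _ Complex.imCLM.contDiff.contDiffAt h2
      have h4 : ContDiffAt ℝ ∞ (fun w : ℂ => f (log w).im) z :=
        ContDiffAt.comp (g := f) _ hs.contDiffAt h3
      have h5 : ContDiffAt ℝ ∞ (fun w : ℂ => ((f (log w).im : ℝ) : ℂ)) z :=
        ContDiffAt.comp (g := fun t : ℝ => (t : ℂ)) _ Complex.ofRealCLM.contDiff.contDiffAt h4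
      exact (h5.mul contDiffAt_const).cexp
    · show _ = Complex.exp ((f (log (w : ℂ)).im : ℝ) * I)
      rw [Complex.log_im]
      rfl

theorem arg_circ (f : ℝ ≃o ℝ) (hf : ∀ x, 1 / 2 ≤ |x| → f x = x) (z : Circle) :
    arg (circ f z) = f (arg z) := by
  have hpi := Real.pi_gt_three
  have h1 : f (-π) = -π := hf _ (by rw [abs_neg, abs_of_pos Real.pi_pos]; linarith)
  have h2 : f π = π := hf _ (by rw [abs_of_pos Real.pi_pos]; linarith)
  unfold circ
  apply Circle.arg_exp
  · rw [← h1]; exact f.strictMono (Complex.neg_pi_lt_arg _)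
  · rw [← h2]; exact f.monotone (Complex.arg_le_pi _)

theorem exists_arc_diffeo : ∃ h : Equiv.Perm Circle, Sm h ∧ Sm h.symm ∧
    (∀ z : Circle, (z : ℂ).re ≤ 4 / 5 → h z = z) ∧ h (h 1) ≠ 1 := by
  obtain ⟨f, hf, hf', hid, hge, h0⟩ := exists_line_diffeo
  have hid' : ∀ x, 1 / 2 ≤ |x| → f.symm x = x := fun x hx => by
    rw [OrderIso.symm_apply_eq, hid x hx]
  refine ⟨⟨circ f, circ f.symm, fun z => ?_, fun z => ?_⟩, circ_sm hid hf, circ_sm hid' hf',
    circ_fix hid, ?_⟩
  · rw [circ, arg_circ f hid, OrderIso.symm_apply_apply, Circle.exp_arg]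
  · rw [circ, arg_circ f.symm hid', OrderIso.apply_symm_apply, Circle.exp_arg]
  · intro h
    have h1 : arg (circ f (circ f 1)) = arg ((1 : Circle) : ℂ) := congrArg (fun z : Circle => arg z) h
    rw [arg_circ f hid, arg_circ f hid, Circle.coe_one, Complex.arg_one] at h1
    have := hge (f 0)
    linarith

end Pool.Agent.Work.MP_3070fc_an
end

-- merged part: Pool.Agent.Work.MP_3070fc_an.Group
section
/-!
The group generated by three ping-pong involutions and a diffeomorphism supported in an arc of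
their fundamental domain.
-/

set_option autoImplicit false

namespace Pool.Agent.Work.MP_3070fc_an

open Filter Topology Complex
open scoped ComplexConjugate

theorem perm_apply_inv (f : Equiv.Perm Circle) (z : Circle) : f (f⁻¹ z) = z :=
  f.apply_symm_apply z

theorem perm_inv_apply (f : Equiv.Perm Circle) (z : Circle) : f⁻¹ (f z) = z :=
  f.symm_apply_apply z

/-- Centres of the three involutions. -/
noncomputable def ctr : Fin 3 → ℂ := ![⟨-5 / 4, 0⟩, ⟨0, 5 / 4⟩, ⟨0, -5 / 4⟩]

theorem ctr_normSq (i : Fin 3) : 1 < normSq (ctr i) := by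
  fin_cases i <;> simp [ctr, normSq_apply] <;> norm_num

/-- The three involutions. -/
noncomputable def sg (i : Fin 3) : Equiv.Perm Circle := mobPerm (ctr_normSq i)

/-- The linear form cutting out the `i`-th ping-pong arc. -/
noncomputable def qf (i : Fin 3) (z : Circle) : ℝ := (conj (ctr i) * z).re

theorem qf0 (z : Circle) : qf 0 z = -5 / 4 * (z : ℂ).re := by simp [qf, ctr]
theorem qf1 (z : Circle) : qf 1 z = 5 / 4 * (z : ℂ).im := by simp [qf, ctr]
theorem qf2 (z : Circle) : qf 2 z = -5 / 4 * (z : ℂ).im := by simp [qf, ctr]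

theorem circle_sq (z : Circle) : (z : ℂ).re * (z : ℂ).re + (z : ℂ).im * (z : ℂ).im = 1 := by
  rw [← normSq_apply]; exact Circle.normSq_coe z

theorem sg_sg (i : Fin 3) (z : Circle) : sg i (sg i z) = z := mob_mob (ctr_normSq i) z

theorem sg_mul_sg (i : Fin 3) : sg i * sg i = 1 := Equiv.ext (sg_sg i)

theorem sg_inv (i : Fin 3) : (sg i)⁻¹ = sg i := inv_eq_of_mul_eq_one_right (sg_mul_sg i)

theorem sg_sm (i : Fin 3) : Sm (sg i) := mob_sm (ctr_normSq i)

theorem sg_pp (i : Fin 3) (z : Circle) (hz : qf i z < 1) : 1 < qf i (sg i z) :=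
  mob_pingpong (ctr_normSq i) z hz

theorem qf_sep {i j : Fin 3} (hij : i ≠ j) (z : Circle) (hz : 1 ≤ qf j z) : qf i z < 1 := by
  have h := circle_sq z
  have e0 := qf0 z
  have e1 := qf1 z
  have e2 := qf2 z
  fin_cases i <;> fin_cases j <;> simp only [Fin.zero_eta, Fin.mk_one, Fin.reduceFinMk] at * <;>
    first
    | exact absurd rfl hij
    | (by_contra hcon; rw [not_lt] at hcon; nlinarith)

theorem qf_J (i : Fin 3) (z : Circle) (hz : 4 / 5 < (z : ℂ).re) : qf i z < 1 := by
  have h := circle_sq z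
  have e0 := qf0 z
  have e1 := qf1 z
  have e2 := qf2 z
  fin_cases i <;> simp only [Fin.zero_eta, Fin.mk_one, Fin.reduceFinMk] at * <;>
    (by_contra hcon; rw [not_lt] at hcon; nlinarith)

/-- Nontrivial reduced words in the involutions, with their first letter. -/
inductive Red : Fin 3 → Equiv.Perm Circle → Prop
  | base (i : Fin 3) : Red i (sg i)
  | step (i j : Fin 3) (γ : Equiv.Perm Circle) : i ≠ j → Red j γ → Red i (sg i * γ)

theorem Red.maps {i : Fin 3} {γ : Equiv.Perm Circle} (h : Red i γ) (z : Circle)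
    (hz : 4 / 5 < (z : ℂ).re) : 1 < qf i (γ z) := by
  induction h with
  | base i => exact sg_pp i z (qf_J i z hz)
  | step i j γ hij _ ih => exact sg_pp i _ (qf_sep hij _ ih.le)

theorem red_mul (i : Fin 3) {γ : Equiv.Perm Circle} (h : γ = 1 ∨ ∃ j, Red j γ) :
    sg i * γ = 1 ∨ ∃ j, Red j (sg i * γ) := by
  rcases h with rfl | ⟨j, hj⟩
  · right; exact ⟨i, by rw [mul_one]; exact Red.base i⟩
  · by_cases hij : i = j
    · subst hij
      cases hj with
      | base => left; exact sg_mul_sg i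
      | step _ k δ hik hk =>
        right
        exact ⟨k, by rw [← mul_assoc, sg_mul_sg, one_mul]; exact hk⟩
    · right; exact ⟨i, Red.step i j γ hij hj⟩

/-- The group generated by the three involutions. -/
noncomputable def Gam : Subgroup (Equiv.Perm Circle) := Subgroup.closure (Set.range sg)

theorem sg_mem_Gam (i : Fin 3) : sg i ∈ Gam := Subgroup.subset_closure ⟨i, rfl⟩

theorem Gam_red {γ : Equiv.Perm Circle} (h : γ ∈ Gam) : γ = 1 ∨ ∃ j, Red j γ := by
  induction h using Subgroup.closure_induction_left with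
  | one => left; rfl
  | mul_left x hx y _ ih => obtain ⟨i, rfl⟩ := hx; exact red_mul i ih
  | inv_mul_cancel x hx y _ ih => obtain ⟨i, rfl⟩ := hx; rw [sg_inv]; exact red_mul i ih

theorem Gam_maps {γ : Equiv.Perm Circle} (h : γ ∈ Gam) (z : Circle) (hz : 4 / 5 < (z : ℂ).re) :
    γ = 1 ∨ ∃ i, 1 < qf i (γ z) := by
  rcases Gam_red h with h | ⟨j, hj⟩
  · left; exact h
  · right; exact ⟨j, hj.maps z hz⟩

section withH

variable {h : Equiv.Perm Circle} (hfix : ∀ z : Circle, (z : ℂ).re ≤ 4 / 5 → h z = z)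
include hfix

theorem Gam_commute {δ : Equiv.Perm Circle} (hδ : δ ∈ Gam) : Commute (δ * h * δ⁻¹) h := by
  by_cases h1 : δ = 1
  · rw [h1]; simp
  · apply Equiv.Perm.Disjoint.commute
    intro z
    by_cases hz : (z : ℂ).re ≤ 4 / 5
    · right; exact hfix z hz
    · left
      have h2 : ((δ⁻¹ z : Circle) : ℂ).re ≤ 4 / 5 := by
        by_contra h3
        rcases Gam_maps hδ (δ⁻¹ z) (not_le.mp h3) with h4 | ⟨i, hi⟩
        · exact h1 h4
        · rw [perm_apply_inv] at hi
          have := qf_J i z (not_le.mp hz)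
          linarith
      rw [Equiv.Perm.mul_apply, Equiv.Perm.mul_apply, hfix _ h2, perm_apply_inv]

omit hfix in
/-- The generating set of the counterexample. -/
def gens (h : Equiv.Perm Circle) : Set (Equiv.Perm Circle) := insert h (Set.range sg)

theorem conj_mem {g : Equiv.Perm Circle} (hg : g ∈ Subgroup.closure (gens h)) :
    ∀ γ ∈ Gam, ∃ γ' ∈ Gam, g * (γ * h * γ⁻¹) * g⁻¹ = γ' * h * γ'⁻¹ := by
  induction hg using Subgroup.closure_induction'' with
  | mem x hx =>
    intro γ hγ
    rcases hx with rfl | ⟨i, rfl⟩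
    · refine ⟨γ, hγ, ?_⟩
      rw [← (Gam_commute hfix hγ).eq, mul_inv_cancel_right]
    · exact ⟨sg i * γ, Gam.mul_mem (sg_mem_Gam i) hγ, by group⟩
  | inv_mem x hx =>
    intro γ hγ
    rcases hx with rfl | ⟨i, rfl⟩
    · refine ⟨γ, hγ, ?_⟩
      rw [inv_inv, mul_assoc, (Gam_commute hfix hγ).eq, inv_mul_cancel_left]
    · exact ⟨(sg i)⁻¹ * γ, Gam.mul_mem (Gam.inv_mem (sg_mem_Gam i)) hγ, by group⟩
  | one => intro γ hγ; exact ⟨γ, hγ, by group⟩
  | mul x y _ _ ihx ihy =>
    intro γ hγ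
    obtain ⟨γ', hγ', e1⟩ := ihy γ hγ
    obtain ⟨γ'', hγ'', e2⟩ := ihx γ' hγ'
    refine ⟨γ'', hγ'', ?_⟩
    rw [← e2, ← e1]; group

theorem conj_commute {g : Equiv.Perm Circle} (hg : g ∈ Subgroup.closure (gens h)) :
    Commute (g * h * g⁻¹) h := by
  obtain ⟨γ', hγ', e⟩ := conj_mem hfix hg 1 Gam.one_mem
  rw [one_mul, inv_one, mul_one] at e
  rw [e]
  exact Gam_commute hfix hγ'

omit hfix in
theorem gens_sm (h1 : Sm h) (h2 : Sm h.symm) {g : Equiv.Perm Circle}
    (hg : g ∈ Subgroup.closure (gens h)) : Sm g := by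
  induction hg using Subgroup.closure_induction'' with
  | mem x hx =>
    rcases hx with rfl | ⟨i, rfl⟩
    · exact h1
    · exact sg_sm i
  | inv_mem x hx =>
    rcases hx with rfl | ⟨i, rfl⟩
    · exact h2
    · rw [sg_inv]; exact sg_sm i
  | one => exact Sm.id
  | mul x y _ _ ihx ihy => exact ihx.comp ihy

omit hfix in
theorem Gam_sm {g : Equiv.Perm Circle} (hg : g ∈ Gam) : Sm g := by
  induction hg using Subgroup.closure_induction'' with
  | mem x hx => obtain ⟨i, rfl⟩ := hx; exact sg_sm i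
  | inv_mem x hx => obtain ⟨i, rfl⟩ := hx; rw [sg_inv]; exact sg_sm i
  | one => exact Sm.id
  | mul x y _ _ ihx ihy => exact ihx.comp ihy

omit hfix in
/-- The complement of the orbit of the arc. -/
def K0 : Set Circle := {z | ∀ γ ∈ Gam, ((γ z : Circle) : ℂ).re ≤ 4 / 5}

omit hfix in
theorem K0_closed : IsClosed K0 := by
  have : K0 = ⋂ γ ∈ Gam, {z | ((γ z : Circle) : ℂ).re ≤ 4 / 5} := by
    ext z; simp [K0]
  rw [this]
  refine isClosed_biInter fun γ hγ => isClosed_le ?_ continuous_const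
  exact Complex.continuous_re.comp (continuous_coe_circle.comp (Gam_sm hγ).continuous)

omit hfix in
theorem K0_nonempty : K0.Nonempty := by
  let x₀ : Circle := ⟨⟨3 / 5, 4 / 5⟩, mem_sphere_zero_iff_norm.2 <| by
    rw [Complex.norm_eq_sqrt_sq_add_sq]; norm_num⟩
  have hre : (x₀ : ℂ).re = 3 / 5 := rfl
  have him : (x₀ : ℂ).im = 4 / 5 := rfl
  refine ⟨x₀, fun γ hγ => ?_⟩
  by_contra hcon
  rw [not_le] at hcon
  rcases Gam_maps (Gam.inv_mem hγ) _ hcon with h1 | ⟨i, hi⟩
  · rw [inv_eq_one] at h1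
    rw [h1, Equiv.Perm.one_apply, hre] at hcon
    norm_num at hcon
  · rw [perm_inv_apply] at hi
    have e0 := qf0 x₀
    have e1 := qf1 x₀
    have e2 := qf2 x₀
    rw [hre] at e0
    rw [him] at e1 e2
    fin_cases i <;> simp only [Fin.zero_eta, Fin.mk_one, Fin.reduceFinMk] at hi <;> linarith

omit hfix in
theorem one_not_mem_K0 : (1 : Circle) ∉ K0 := by
  intro h1
  have := h1 1 Gam.one_mem
  rw [Equiv.Perm.one_apply, Circle.coe_one, one_re] at this
  norm_num at this

theorem K0_inv {g : Equiv.Perm Circle} (hg : g ∈ Subgroup.closure (gens h)) :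
    ∀ z ∈ K0, g z ∈ K0 := by
  induction hg using Subgroup.closure_induction'' with
  | mem x hx =>
    intro z hz
    rcases hx with rfl | ⟨i, rfl⟩
    · rw [hfix z (hz 1 Gam.one_mem)]; exact hz
    · intro γ hγ
      exact hz (γ * sg i) (Gam.mul_mem hγ (sg_mem_Gam i))
  | inv_mem x hx =>
    intro z hz
    rcases hx with rfl | ⟨i, rfl⟩
    · have : x⁻¹ z = z := by
        rw [Equiv.Perm.inv_eq_iff_eq, hfix z (hz 1 Gam.one_mem)]
      rw [this]; exact hz
    · intro γ hγ
      exact hz (γ * (sg i)⁻¹) (Gam.mul_mem hγ (Gam.inv_mem (sg_mem_Gam i)))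
  | one => intro z hz; exact hz
  | mul x y _ _ ihx ihy => intro z hz; exact ihx _ (ihy z hz)

end withH

theorem pp_of_finite {K : Set Circle} (hK : K.Finite) (hinv : ∀ i, ∀ z ∈ K, sg i z ∈ K)
    {i j : Fin 3} (hij : i ≠ j) {z : Circle} (hz : z ∈ K) (hq : qf j z < 1) : 1 < qf i z := by
  set f : Equiv.Perm Circle := sg i * sg j with hf
  have hstep : ∀ w, qf j w < 1 → 1 < qf i (f w) := fun w hw =>
    sg_pp i _ (qf_sep hij _ (sg_pp j w hw).le)
  have hmem : ∀ n : ℕ, (f ^ n) z ∈ K := by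
    intro n
    induction n with
    | zero => exact hz
    | succ n ih => rw [pow_succ', Equiv.Perm.mul_apply]; exact hinv i _ (hinv j _ ih)
  have hX : ∀ n : ℕ, 1 < qf i ((f ^ (n + 1)) z) := by
    intro n
    induction n with
    | zero => simpa using hstep z hq
    | succ n ih =>
      rw [pow_succ', Equiv.Perm.mul_apply]
      exact hstep _ (qf_sep hij.symm _ ih.le)
  obtain ⟨a, b, hab, e⟩ := hK.exists_lt_map_eq_of_forall_mem hmem
  obtain ⟨k, rfl⟩ : ∃ k, b = a + (k + 1) := ⟨b - a - 1, by omega⟩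
  rw [pow_add, Equiv.Perm.mul_apply] at e
  have e2 := (f ^ a).injective e
  have := hX k
  rwa [← e2] at this

theorem infinite_of_inv {K : Set Circle} (hne : K.Nonempty) (hinv : ∀ i, ∀ z ∈ K, sg i z ∈ K) :
    K.Infinite := by
  intro hK
  obtain ⟨z, hz⟩ := hne
  by_cases h0 : qf 0 z < 1
  · have h1 := pp_of_finite hK hinv (show (1 : Fin 3) ≠ 0 by decide) hz h0
    have h2 := pp_of_finite hK hinv (show (2 : Fin 3) ≠ 0 by decide) hz h0
    have := qf_sep (show (1 : Fin 3) ≠ 2 by decide) z h2.le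
    linarith
  · have h1 := qf_sep (show (1 : Fin 3) ≠ 0 by decide) z (not_lt.mp h0)
    have h2 := pp_of_finite hK hinv (show (2 : Fin 3) ≠ 1 by decide) hz h1
    have := qf_sep (show (0 : Fin 3) ≠ 2 by decide) z h2.le
    exact h0 this

theorem exists_minimal {ι : Type*} (φ : ι → Circle → Circle) {K₀ : Set Circle}
    (hcl : IsClosed K₀) (hne : K₀.Nonempty) (hinv : ∀ g, φ g '' K₀ ⊆ K₀) :
    ∃ K : Set Circle, K ⊆ K₀ ∧ IsClosed K ∧ K.Nonempty ∧ (∀ g, φ g '' K ⊆ K) ∧
      (∀ L : Set Circle, L ⊆ K → IsClosed L → L.Nonempty → (∀ g, φ g '' L ⊆ L) → L = K) := by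
  obtain ⟨K, hK, hmin⟩ := zorn_superset_nonempty
    {L : Set Circle | IsClosed L ∧ L.Nonempty ∧ ∀ g, φ g '' L ⊆ L} (fun c hc hchain hcne => by
      have : Nonempty c := hcne.to_subtype
      refine ⟨⋂₀ c, ⟨isClosed_sInter fun U hU => (hc hU).1, ?_, ?_⟩,
        fun s hs => Set.sInter_subset_of_mem hs⟩
      · apply IsCompact.nonempty_sInter_of_directed_nonempty_isCompact_isClosed
        · intro U hU V hV
          rcases hchain.total hU hV with h | h
          · exact ⟨U, hU, Set.Subset.rfl, h⟩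
          · exact ⟨V, hV, h, Set.Subset.rfl⟩
        · exact fun U hU => (hc hU).2.1
        · exact fun U hU => (hc hU).1.isCompact
        · exact fun U hU => (hc hU).1
      · rintro g _ ⟨z, hz, rfl⟩ U hU
        exact (hc hU).2.2 g ⟨z, hz U hU, rfl⟩) K₀ ⟨hcl, hne, hinv⟩
  refine ⟨K, hK, hmin.prop.1, hmin.prop.2.1, hmin.prop.2.2, fun L hL h1 h2 h3 => ?_⟩
  exact Set.Subset.antisymm hL (hmin.le_of_le ⟨h1, h2, h3⟩ hL)

theorem commutator_ne_one {h : Equiv.Perm Circle}
    (hfix : ∀ z : Circle, (z : ℂ).re ≤ 4 / 5 → h z = z) (h1 : h (h 1) ≠ 1) :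
    ((sg 0 * sg 1) * (sg 0 * sg 1)) * (h * h) * ((sg 0 * sg 1) * (sg 0 * sg 1))⁻¹ * (h * h)⁻¹
      ≠ 1 := by
  intro e
  rw [mul_inv_eq_one] at e
  have e1 := congrArg (fun f : Equiv.Perm Circle => f 1) e
  have hred : Red 1 (sg 1 * (sg 0 * (sg 1 * sg 0))) :=
    Red.step 1 0 _ (by decide) (Red.step 0 1 _ (by decide) (Red.step 1 0 _ (by decide)
      (Red.base 0)))
  have hinv : ((sg 0 * sg 1) * (sg 0 * sg 1))⁻¹ = sg 1 * (sg 0 * (sg 1 * sg 0)) := by
    simp only [mul_inv_rev, sg_inv, mul_assoc]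
  have h2 := hred.maps 1 (by rw [Circle.coe_one, one_re]; norm_num)
  rw [← hinv] at h2
  set δ := (sg 0 * sg 1) * (sg 0 * sg 1) with hδ
  have h3 : ((δ⁻¹ 1 : Circle) : ℂ).re ≤ 4 / 5 := by
    by_contra hcon
    have := qf_J 1 _ (not_le.mp hcon)
    linarith
  simp only [Equiv.Perm.mul_apply] at e1
  rw [hfix _ h3, hfix _ h3, perm_apply_inv] at e1
  exact h1 e1.symm

end Pool.Agent.Work.MP_3070fc_an
end
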