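import Mathlib

/-!
An algebraic obstruction to faithful minimal actions on the circle: if all conjugates of `h`
commute, then in a faithful action by homeomorphisms with all orbits dense the commutator of
any square with `h ^ 2` is trivial.
-/

set_option autoImplicit false

namespace Pool.Agent.Work.MP_3070fc_an

open Filter Topology Real

/-- The universal covering of the circle, with period one. -/
noncomputable def cov (x : ℝ) : Circle := Circle.exp (2 * π * x)

theorem cov_continuous : Continuous cov := by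
  unfold cov; fun_prop

theorem cov_eq_iff {x y : ℝ} : cov x = cov y ↔ ∃ m : ℤ, x = y + m := by
  unfold cov
  rw [Circle.exp_eq_exp]
  have hp : (2 * π) ≠ 0 := by positivity
  constructor
  · rintro ⟨m, hm⟩
    refine ⟨m, ?_⟩
    apply mul_left_cancel₀ hp
    rw [hm]; ring
  · rintro ⟨m, hm⟩
    exact ⟨m, by rw [hm]; ring⟩

theorem cov_add_int (x : ℝ) (m : ℤ) : cov (x + m) = cov x := cov_eq_iff.mpr ⟨m, rfl⟩

theorem cov_surjective : Function.Surjective cov := by
  intro z
  obtain ⟨t, ht⟩ := Circle.exp_surjective z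
  refine ⟨t / (2 * π), ?_⟩
  unfold cov
  have hp : (2 * π) ≠ 0 := by positivity
  rw [mul_div_cancel₀ _ hp, ht]

theorem lift_unique {F G : ℝ → ℝ} (hF : Continuous F) (hG : Continuous G)
    (h : ∀ x, cov (F x) = cov (G x)) : ∃ m : ℤ, ∀ x, F x = G x + m := by
  obtain ⟨m, hm⟩ := cov_eq_iff.mp (h 0)
  refine ⟨m, ?_⟩
  have key : (fun x => 2 * π * F x) = fun x => 2 * π * (G x + m) := by
    apply Circle.isCoveringMap_exp.eq_of_comp_eq (by fun_prop) (by fun_prop) _ 0
    · simp only [hm]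
    · funext x
      have h1 := h x
      rw [← cov_add_int (G x) m] at h1
      exact h1
  intro x
  have hp : (2 * π) ≠ 0 := by positivity
  exact mul_left_cancel₀ hp (congrFun key x)

theorem exists_lift {f : Circle → Circle} (hf : Continuous f) :
    ∃ F : ℝ → ℝ, Continuous F ∧ ∀ x, cov (F x) = f (cov x) := by
  obtain ⟨t, ht⟩ := Circle.exp_surjective (f (cov 0))
  obtain ⟨F, ⟨_, hF⟩, _⟩ := Circle.isCoveringMap_exp.existsUnique_continuousMap_lifts
    (⟨fun x => f (cov x), hf.comp cov_continuous⟩ : C(ℝ, Circle)) 0 t ht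
  refine ⟨fun x => F x / (2 * π), by fun_prop, fun x => ?_⟩
  have hp : (2 * π) ≠ 0 := by positivity
  unfold cov
  rw [mul_div_cancel₀ _ hp]
  exact congrFun hF x

theorem lift_add_int {F : ℝ → ℝ} {d : ℤ} (hd : ∀ x, F (x + 1) = F x + d) (n : ℤ) :
    ∀ x, F (x + n) = F x + n * d := by
  induction n using Int.induction_on with
  | zero => intro x; simp
  | succ k ih =>
    intro x
    have h1 := hd (x + (k : ℤ))
    have h2 := ih x
    push_cast at h1 h2 ⊢
    rw [← add_assoc, h1, h2]; ring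
  | pred k ih =>
    intro x
    have h1 := hd (x + ((-(k : ℤ) - 1 : ℤ) : ℝ))
    have h2 := ih x
    push_cast at h1 h2 ⊢
    have h3 : x + (-(k : ℝ) - 1) + 1 = x + -(k : ℝ) := by ring
    rw [h3, h2] at h1
    linarith

/-- The square of a circle homeomorphism lifts to an invertible degree one lift. -/
theorem exists_unit_sq {f g : Circle → Circle} (hf : Continuous f) (hg : Continuous g)
    (hgf : ∀ z, g (f z) = z) :
    ∃ U : CircleDeg1Liftˣ, ∀ x, cov ((U : CircleDeg1Lift) x) = f (f (cov x)) := by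
  obtain ⟨F, hFc, hF⟩ := exists_lift hf
  obtain ⟨G, hGc, hG⟩ := exists_lift hg
  obtain ⟨m, hm⟩ := lift_unique (F := fun x => G (F x)) (G := fun x => x) (hGc.comp hFc)
    continuous_id (fun x => by rw [hG, hF, hgf])
  obtain ⟨d, hd⟩ := lift_unique (F := fun x => F (x + 1)) (G := F) (by fun_prop) hFc
    (fun x => by
      rw [hF, hF]
      have := cov_add_int x 1
      rw [Int.cast_one] at this
      rw [this])
  obtain ⟨d', hd'⟩ := lift_unique (F := fun x => G (x + 1)) (G := G) (by fun_prop) hGc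
    (fun x => by
      rw [hG, hG]
      have := cov_add_int x 1
      rw [Int.cast_one] at this
      rw [this])
  have hinj : Function.Injective F := by
    intro x y hxy
    have h1 := hm x
    have h2 := hm y
    rw [hxy] at h1
    linarith
  have hdd : d * d' = 1 := by
    have h1 := hm (0 + 1)
    have h2 := hm 0
    have h3 := hd 0
    have h4 := lift_add_int hd' d (F 0)
    rw [h3, h4, h2] at h1
    have : ((d * d' : ℤ) : ℝ) = ((1 : ℤ) : ℝ) := by push_cast; linarith
    exact_mod_cast this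
  have hd2 : d * d = 1 := by
    rcases Int.eq_one_or_neg_one_of_mul_eq_one hdd with h | h <;> rw [h] <;> norm_num
  have hmono : StrictMono (fun x => F (F x)) := by
    rcases hFc.strictMono_of_inj hinj with h | h
    · exact h.comp h
    · exact h.comp h
  let V : CircleDeg1Lift := ⟨⟨fun x => F (F x), hmono.monotone⟩, fun x => by
    show F (F (x + 1)) = F (F x) + 1
    have h3 := hd x
    rw [h3, lift_add_int hd d (F x)]
    have : ((d * d : ℤ) : ℝ) = ((1 : ℤ) : ℝ) := by rw [hd2]
    push_cast at this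
    rw [this]⟩
  have hVc : Continuous V := hFc.comp hFc
  have hVb : Function.Bijective V := ⟨hmono.injective, V.continuous_iff_surjective.mp hVc⟩
  obtain ⟨U, hU⟩ := CircleDeg1Lift.isUnit_iff_bijective.mpr hVb
  refine ⟨U, fun x => ?_⟩
  rw [hU]
  show cov (F (F x)) = f (f (cov x))
  rw [hF, hF]

theorem unit_continuous (U : CircleDeg1Liftˣ) : Continuous (U : CircleDeg1Lift) :=
  (U : CircleDeg1Lift).continuous_iff_surjective.mpr
    (CircleDeg1Lift.isUnit_iff_bijective.mp U.isUnit).2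

section action

variable {G : Type*} [Group G] (ψ : G → Circle → Circle)

/-- `g` acts by an orientation preserving homeomorphism. -/
def OP (g : G) : Prop :=
  ∃ U : CircleDeg1Liftˣ, ∀ x, cov ((U : CircleDeg1Lift) x) = ψ g (cov x)

variable {ψ} (h1 : ψ 1 = id) (hm : ∀ g h : G, ψ (g * h) = ψ g ∘ ψ h)
  (hc : ∀ g, Continuous (ψ g))
include h1 hm

theorem act_inv_act (g : G) (z : Circle) : ψ g⁻¹ (ψ g z) = z := by
  have := congrFun (hm g⁻¹ g) z
  rw [inv_mul_cancel, h1] at this
  exact this.symm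

theorem act_act_inv (g : G) (z : Circle) : ψ g (ψ g⁻¹ z) = z := by
  have := act_inv_act h1 hm g⁻¹ z
  rwa [inv_inv] at this

omit h1 in
theorem lift_mul {g h : G} {U V : CircleDeg1Liftˣ}
    (hU : ∀ x, cov ((U : CircleDeg1Lift) x) = ψ g (cov x))
    (hV : ∀ x, cov ((V : CircleDeg1Lift) x) = ψ h (cov x)) :
    ∀ x, cov (((U * V : CircleDeg1Liftˣ) : CircleDeg1Lift) x) = ψ (g * h) (cov x) := by
  intro x
  rw [Units.val_mul, CircleDeg1Lift.mul_apply, hU, hV, hm]
  rfl

theorem lift_inv {g : G} {U : CircleDeg1Liftˣ}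
    (hU : ∀ x, cov ((U : CircleDeg1Lift) x) = ψ g (cov x)) :
    ∀ x, cov (((U⁻¹ : CircleDeg1Liftˣ) : CircleDeg1Lift) x) = ψ g⁻¹ (cov x) := by
  intro x
  have h2 := hU (((U⁻¹ : CircleDeg1Liftˣ) : CircleDeg1Lift) x)
  rw [CircleDeg1Lift.units_apply_inv_apply] at h2
  rw [h2, act_inv_act h1 hm]

omit h1 in
theorem OP.mul {g h : G} (hg : OP ψ g) (hh : OP ψ h) : OP ψ (g * h) := by
  obtain ⟨U, hU⟩ := hg
  obtain ⟨V, hV⟩ := hh
  exact ⟨U * V, lift_mul hm hU hV⟩

theorem OP.inv {g : G} (hg : OP ψ g) : OP ψ g⁻¹ := by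
  obtain ⟨U, hU⟩ := hg
  exact ⟨U⁻¹, lift_inv h1 hm hU⟩

include hc in
theorem OP_sq (g : G) : OP ψ (g * g) := by
  obtain ⟨U, hU⟩ := exists_unit_sq (hc g) (hc g⁻¹) (act_inv_act h1 hm g)
  exact ⟨U, fun x => by rw [hU, hm]; rfl⟩

theorem exists_fixed_of_commute {a u : G} (ha : OP ψ a) (hu : OP ψ u)
    (hcomm : Commute (a * u * a⁻¹) u) : ∃ z, ψ (a * u * a⁻¹ * u⁻¹) z = z := by
  obtain ⟨A, hA⟩ := ha
  obtain ⟨U, hU⟩ := hu
  have hW := lift_mul hm (lift_mul hm hA hU) (lift_inv h1 hm hA)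
  set W : CircleDeg1Liftˣ := A * U * A⁻¹ with hWdef
  have hτW : CircleDeg1Lift.translationNumber (W : CircleDeg1Lift)
      = CircleDeg1Lift.translationNumber (U : CircleDeg1Lift) := by
    rw [hWdef, Units.val_mul, Units.val_mul]
    exact CircleDeg1Lift.translationNumber_conj_eq A U
  have hWUW := lift_mul hm (lift_mul hm hW hU) (lift_inv h1 hm hW)
  have e1 : a * u * a⁻¹ * u * (a * u * a⁻¹)⁻¹ = u := by
    rw [hcomm.eq, mul_inv_cancel_right]
  rw [e1] at hWUW
  obtain ⟨m, hmm⟩ := lift_unique (unit_continuous (W * U * W⁻¹)) (unit_continuous U)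
    (fun x => by rw [hWUW, hU])
  have e2 : ((W * U * W⁻¹ : CircleDeg1Liftˣ) : CircleDeg1Lift)
      = (CircleDeg1Lift.translate (Multiplicative.ofAdd (m : ℝ)) : CircleDeg1Lift) * U := by
    ext x
    rw [hmm, CircleDeg1Lift.mul_apply, add_comm]
    rfl
  have hcomm2 : Commute
      (CircleDeg1Lift.translate (Multiplicative.ofAdd (m : ℝ)) : CircleDeg1Lift)
      (U : CircleDeg1Lift) := by
    ext x
    rw [CircleDeg1Lift.mul_apply, CircleDeg1Lift.mul_apply]
    show (m : ℝ) + (U : CircleDeg1Lift) x = (U : CircleDeg1Lift) ((m : ℝ) + x)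
    rw [CircleDeg1Lift.map_int_add]
  have hm0 : (m : ℝ) = 0 := by
    have h3 : CircleDeg1Lift.translationNumber ((W * U * W⁻¹ : CircleDeg1Liftˣ) : CircleDeg1Lift)
        = CircleDeg1Lift.translationNumber (U : CircleDeg1Lift) := by
      rw [Units.val_mul, Units.val_mul]
      exact CircleDeg1Lift.translationNumber_conj_eq W U
    rw [e2, CircleDeg1Lift.translationNumber_mul_of_commute hcomm2,
      CircleDeg1Lift.translationNumber_translate] at h3
    linarith
  have e3 : W * U * W⁻¹ = U := by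
    apply Units.ext
    ext x
    rw [hmm, hm0, add_zero]
  have hWU : Commute W U := by
    have : W * U = U * W := by
      calc W * U = W * U * W⁻¹ * W := by rw [inv_mul_cancel_right]
        _ = U * W := by rw [e3]
    exact this
  have hWU' : Commute (W : CircleDeg1Lift) ((U⁻¹ : CircleDeg1Liftˣ) : CircleDeg1Lift) :=
    Commute.units_val hWU.inv_right
  have hτ : CircleDeg1Lift.translationNumber ((W * U⁻¹ : CircleDeg1Liftˣ) : CircleDeg1Lift)
      = 0 := by
    rw [Units.val_mul, CircleDeg1Lift.translationNumber_mul_of_commute hWU',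
      CircleDeg1Lift.translationNumber_units_inv, hτW]
    ring
  obtain ⟨x, hx⟩ := CircleDeg1Lift.exists_eq_add_translationNumber _ (unit_continuous (W * U⁻¹))
  rw [hτ, add_zero] at hx
  refine ⟨cov x, ?_⟩
  rw [← lift_mul hm hW (lift_inv h1 hm hU) x, hx]

theorem exists_fixed_in_closed {g : G} (hg : OP ψ g) (hfix : ∃ z, ψ g z = z) {C : Set Circle}
    (hC : IsClosed C) (hne : C.Nonempty) (hinv : ∀ z ∈ C, ψ g z ∈ C)
    (hinv' : ∀ z ∈ C, ψ g⁻¹ z ∈ C) : ∃ z ∈ C, ψ g z = z := by
  obtain ⟨V, hV⟩ := hg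
  obtain ⟨z₀, hz₀⟩ := hfix
  obtain ⟨p, rfl⟩ := cov_surjective z₀
  rw [← hV] at hz₀
  obtain ⟨k, hk⟩ := cov_eq_iff.mp hz₀
  set D : Set ℝ := cov ⁻¹' C ∩ Set.Ici p with hD
  have hDc : IsClosed D := (hC.preimage cov_continuous).inter isClosed_Ici
  have hDb : BddBelow D := ⟨p, fun x hx => hx.2⟩
  have hDn : D.Nonempty := by
    obtain ⟨w, hw⟩ := hne
    obtain ⟨q, rfl⟩ := cov_surjective w
    refine ⟨q + (⌈p - q⌉ : ℤ), ?_, ?_⟩
    · show cov (q + (⌈p - q⌉ : ℤ)) ∈ C
      rw [cov_add_int]; exact hw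
    · show p ≤ q + (⌈p - q⌉ : ℤ)
      have := Int.le_ceil (p - q)
      linarith
  have hm0 : sInf D ∈ D := hDc.csInf_mem hDn hDb
  set m := sInf D with hmdef
  have hpm : p ≤ m := hm0.2
  have hmC : cov m ∈ C := hm0.1
  have hA : m ≤ (V : CircleDeg1Lift) m - k := by
    apply csInf_le hDb
    refine ⟨?_, ?_⟩
    · show cov ((V : CircleDeg1Lift) m - k) ∈ C
      have : (V : CircleDeg1Lift) m - k = (V : CircleDeg1Lift) m + ((-k : ℤ) : ℝ) := by
        push_cast; ring
      rw [this, cov_add_int, hV]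
      exact hinv _ hmC
    · show p ≤ (V : CircleDeg1Lift) m - k
      have := (V : CircleDeg1Lift).mono hpm
      linarith
  have hB : m ≤ ((V⁻¹ : CircleDeg1Liftˣ) : CircleDeg1Lift) (m + k) := by
    apply csInf_le hDb
    refine ⟨?_, ?_⟩
    · show cov (((V⁻¹ : CircleDeg1Liftˣ) : CircleDeg1Lift) (m + k)) ∈ C
      rw [lift_inv h1 hm hV, cov_add_int]
      exact hinv' _ hmC
    · show p ≤ ((V⁻¹ : CircleDeg1Liftˣ) : CircleDeg1Lift) (m + k)
      have h2 := ((V⁻¹ : CircleDeg1Liftˣ) : CircleDeg1Lift).mono (show p + k ≤ m + k by linarith)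
      rw [← hk, CircleDeg1Lift.units_inv_apply_apply] at h2
      exact h2
  have hB' := (V : CircleDeg1Lift).mono hB
  rw [CircleDeg1Lift.units_apply_inv_apply] at hB'
  refine ⟨cov m, hmC, ?_⟩
  rw [← hV, cov_eq_iff]
  exact ⟨k, by linarith⟩

include hc in
theorem exists_common_fixed {ι : Type*} (v : ι → G) (hop : ∀ i, OP ψ (v i))
    (hfix : ∀ i, ∃ z, ψ (v i) z = z) (hcomm : ∀ i j, Commute (v i) (v j)) :
    ∃ z, ∀ i, ψ (v i) z = z := by
  classical
  have hcl : ∀ i, IsClosed {z | ψ (v i) z = z} := fun i => isClosed_eq (hc _) continuous_id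
  have hfin : ∀ s : Finset ι, ∃ z, ∀ i ∈ s, ψ (v i) z = z := by
    intro s
    induction s using Finset.induction_on with
    | empty => exact ⟨1, by simp⟩
    | insert j s hj ih =>
      have hcl' : IsClosed {z | ∀ i ∈ s, ψ (v i) z = z} := by
        have : {z | ∀ i ∈ s, ψ (v i) z = z} = ⋂ i ∈ s, {z | ψ (v i) z = z} := by
          ext z; simp
        rw [this]
        exact isClosed_biInter (fun i _ => hcl i)
      have hstab : ∀ g : G, (∀ i, Commute (v i) g) → ∀ z ∈ {z | ∀ i ∈ s, ψ (v i) z = z},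
          ψ g z ∈ {z | ∀ i ∈ s, ψ (v i) z = z} := by
        intro g hg z hz i hi
        have e1 := congrFun (hm (v i) g) z
        have e2 := congrFun (hm g (v i)) z
        rw [(hg i).eq, e2] at e1
        simp only [Function.comp] at e1
        rw [← e1, hz i hi]
      obtain ⟨z, hz, hzj⟩ := exists_fixed_in_closed h1 hm (hop j) (hfix j) hcl' ih
        (hstab _ (fun i => hcomm i j)) (hstab _ (fun i => (hcomm i j).inv_right))
      refine ⟨z, fun i hi => ?_⟩
      rcases Finset.mem_insert.mp hi with h | h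
      · rw [h]; exact hzj
      · exact hz i h
  obtain ⟨z, _, hz⟩ := (isCompact_univ (X := Circle)).inter_iInter_nonempty
    (fun i => {z | ψ (v i) z = z}) hcl (fun s => by
      obtain ⟨z, hz⟩ := hfin s
      exact ⟨z, Set.mem_univ _, by simpa using hz⟩)
  exact ⟨z, fun i => Set.mem_iInter.mp hz i⟩

include hc in
theorem obstruction (hinj : Function.Injective ψ)
    (hdense : ∀ x : Circle, Dense {y : Circle | ∃ g : G, ψ g x = y})
    (h : G) (hcomm : ∀ g : G, Commute (g * h * g⁻¹) h) (γ : G) :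
    (γ * γ) * (h * h) * (γ * γ)⁻¹ * (h * h)⁻¹ = 1 := by
  have hcc : ∀ a b : G, Commute (a * h * a⁻¹) (b * h * b⁻¹) := by
    intro a b
    have h2 := (hcomm (b⁻¹ * a)).eq
    have h3 : a * h * a⁻¹ * (b * h * b⁻¹)
        = b * (b⁻¹ * a * h * (b⁻¹ * a)⁻¹ * h) * b⁻¹ := by group
    have h4 : b * h * b⁻¹ * (a * h * a⁻¹)
        = b * (h * (b⁻¹ * a * h * (b⁻¹ * a)⁻¹)) * b⁻¹ := by group
    show _ = _
    rw [h3, h4, h2]
  set v : G := (γ * γ) * (h * h) * (γ * γ)⁻¹ * (h * h)⁻¹ with hv
  have hform : ∀ a : G, a * v * a⁻¹ =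
      ((a * (γ * γ)) * h * (a * (γ * γ))⁻¹) * ((a * (γ * γ)) * h * (a * (γ * γ))⁻¹)
        * ((a * h * a⁻¹) * (a * h * a⁻¹))⁻¹ := by
    intro a; rw [hv]; group
  have hvfix : ∃ z, ψ v z = z := by
    apply exists_fixed_of_commute h1 hm (OP_sq h1 hm hc γ) (OP_sq h1 hm hc h)
    have e : γ * γ * (h * h) * (γ * γ)⁻¹
        = ((γ * γ) * h * (γ * γ)⁻¹) * ((γ * γ) * h * (γ * γ)⁻¹) := by group
    rw [e]
    have := hcomm (γ * γ)
    exact (this.mul_left this).mul_right (this.mul_left this)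
  obtain ⟨z, hz⟩ := exists_common_fixed h1 hm hc (fun a : G => a * v * a⁻¹)
    (fun a => by
      rw [hform]
      exact OP.mul hm (OP_sq h1 hm hc _) (OP.inv h1 hm (OP_sq h1 hm hc _)))
    (fun a => by
      obtain ⟨z, hz⟩ := hvfix
      refine ⟨ψ a z, ?_⟩
      rw [hm, hm]
      simp only [Function.comp]
      rw [act_inv_act h1 hm, hz])
    (fun a b => by
      rw [hform, hform]
      apply Commute.mul_left
      · apply Commute.mul_left <;>
        · apply Commute.mul_right
          · exact (hcc _ _).mul_right (hcc _ _)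
          · exact ((hcc _ _).mul_right (hcc _ _)).inv_right
      · apply Commute.inv_left
        apply Commute.mul_left <;>
        · apply Commute.mul_right
          · exact (hcc _ _).mul_right (hcc _ _)
          · exact ((hcc _ _).mul_right (hcc _ _)).inv_right)
  have hsub : {y : Circle | ∃ g : G, ψ g z = y} ⊆ {y | ψ v y = y} := by
    rintro y ⟨g, rfl⟩
    have h2 := hz g⁻¹
    rw [inv_inv, hm, hm] at h2
    simp only [Function.comp] at h2
    have h3 := congrArg (ψ g) h2
    rw [act_act_inv h1 hm] at h3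
    exact h3
  have hcl : IsClosed {y | ψ v y = y} := isClosed_eq (hc _) continuous_id
  have hall : ∀ y, ψ v y = y := by
    intro y
    have := closure_minimal hsub hcl
    rw [(hdense z).closure_eq] at this
    exact this (Set.mem_univ y)
  apply hinj
  rw [h1]
  funext y
  exact hall y

end action

end Pool.Agent.Work.MP_3070fc_an
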