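import Pool.Agent.Work.MP_3070fc_an.Group
import Pool.Agent.Work.MP_3070fc_an.Obstruct

/-!
Infinite proper minimal sets of circle actions are Cantor sets; the orientation preserving
version of the example.
-/

set_option autoImplicit false

namespace Pool.Agent.Work.MP_3070fc_an

open Filter Topology Set Real

/-- nonempty compact perfect subsets of the line with empty interior -/
def Cs (C : Set ℝ) : Prop := IsCompact C ∧ Perfect C ∧ C.Nonempty ∧ interior C = ∅

theorem Cs.inter {C U V : Set ℝ} (h : Cs C) (hU : IsOpen U) (hV : IsClosed V)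
    (e : U ∩ C = V ∩ C) (hne : (U ∩ C).Nonempty) : Cs (U ∩ C) := by
  have hc : IsCompact (U ∩ C) := by rw [e]; exact h.1.inter_left hV
  refine ⟨hc, ⟨hc.isClosed, h.2.1.acc.open_inter hU⟩, hne, ?_⟩
  exact subset_eq_empty (interior_mono inter_subset_right) h.2.2.2

theorem Cs.split {C : Set ℝ} (h : Cs C) : ∃ C₀ C₁ : Set ℝ, Cs C₀ ∧ Cs C₁ ∧ C₀ ∪ C₁ = C ∧
    Disjoint C₀ C₁ ∧ ∀ r : ℝ, (∀ x ∈ C, ∀ y ∈ C, dist x y ≤ r) →
      (∀ x ∈ C₀, ∀ y ∈ C₀, dist x y ≤ r * (2 / 3)) ∧
        ∀ x ∈ C₁, ∀ y ∈ C₁, dist x y ≤ r * (2 / 3) := by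
  obtain ⟨a, ha, ha'⟩ := h.1.exists_isLeast h.2.2.1
  obtain ⟨b, hb, hb'⟩ := h.1.exists_isGreatest h.2.2.1
  have hab : a < b := by
    obtain ⟨y, hy, hya⟩ := preperfect_iff_nhds.1 h.2.1.acc a ha univ univ_mem
    exact lt_of_lt_of_le (lt_of_le_of_ne (ha' hy.2) hya.symm) (hb' hy.2)
  obtain ⟨c, hc, hcC⟩ : ∃ c ∈ Ioo (a + (b - a) / 3) (b - (b - a) / 3), c ∉ C := by
    by_contra hn
    push Not at hn
    have h1 := interior_maximal hn isOpen_Ioo
    rw [h.2.2.2, subset_empty_iff, Ioo_eq_empty_iff] at h1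
    exact h1 (by linarith)
  have hne : ∀ x ∈ C, x ≠ c := fun x hx e => hcC (e ▸ hx)
  refine ⟨Iio c ∩ C, Ioi c ∩ C, h.inter isOpen_Iio (isClosed_Iic (a := c)) ?_
    ⟨a, show a < c by linarith [hc.1], ha⟩, h.inter isOpen_Ioi (isClosed_Ici (a := c)) ?_
    ⟨b, show c < b by linarith [hc.2], hb⟩, ?_, ?_, fun r hr => ⟨?_, ?_⟩⟩
  · ext x
    exact ⟨fun hx => ⟨Iio_subset_Iic_self hx.1, hx.2⟩,
      fun hx => ⟨lt_of_le_of_ne (show x ≤ c from hx.1) (hne x hx.2), hx.2⟩⟩
  · ext x
    exact ⟨fun hx => ⟨Ioi_subset_Ici_self hx.1, hx.2⟩,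
      fun hx => ⟨lt_of_le_of_ne (show c ≤ x from hx.1) (hne x hx.2).symm, hx.2⟩⟩
  · ext x
    refine ⟨fun hx => hx.elim (·.2) (·.2), fun hx => ?_⟩
    rcases lt_or_gt_of_ne (hne x hx) with e | e
    exacts [Or.inl ⟨e, hx⟩, Or.inr ⟨e, hx⟩]
  · exact Set.disjoint_left.2 fun x h0 h1 => lt_asymm (show x < c from h0.1) h1.1
  · intro x hx y hy
    have h1 := hr b hb a ha
    rw [Real.dist_eq, abs_of_pos (by linarith)] at h1
    have h2 : x < c := hx.1
    have h3 : y < c := hy.1
    rw [Real.dist_eq, abs_le]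
    constructor <;> linarith [ha' hx.2, ha' hy.2, hc.2]
  · intro x hx y hy
    have h1 := hr b hb a ha
    rw [Real.dist_eq, abs_of_pos (by linarith)] at h1
    have h2 : c < x := hx.1
    have h3 : c < y := hy.1
    rw [Real.dist_eq, abs_le]
    constructor <;> linarith [hb' hx.2, hb' hy.2, hc.1]

open CantorScheme PiNat in
theorem Cs.param {C : Set ℝ} (h : Cs C) :
    ∃ f : (ℕ → Bool) → ℝ, Continuous f ∧ Function.Injective f ∧ range f = C := by
  classical
  choose C0 C1 h0 h1 hun hdisj hdi using fun (E : Set ℝ) (hE : Cs E) => hE.split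
  let DP : List Bool → {E : Set ℝ // Cs E} := fun l =>
    List.rec ⟨C, h⟩ (fun a _ ih => cond a ⟨C1 ih.1 ih.2, h1 _ _⟩ ⟨C0 ih.1 ih.2, h0 _ _⟩) l
  let D : List Bool → Set ℝ := fun l => (DP l).1
  have hf : ∀ l, D (false :: l) = C0 (D l) (DP l).2 := fun _ => rfl
  have ht : ∀ l, D (true :: l) = C1 (D l) (DP l).2 := fun _ => rfl
  have hanti : ClosureAntitone D := by
    refine Antitone.closureAntitone ?_ fun l => (DP l).2.1.isClosed
    intro l a
    rw [← hun (D l) (DP l).2]
    cases a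
    · exact subset_union_left
    · exact subset_union_right
  obtain ⟨r, hr⟩ := Metric.isBounded_iff.1 h.1.isBounded
  have hd : ∀ l : List Bool, ∀ x ∈ D l, ∀ y ∈ D l, dist x y ≤ r * (2 / 3) ^ l.length := by
    intro l
    induction l with
    | nil => intro x hx y hy; simpa using hr hx hy
    | cons a l ih =>
      rw [List.length_cons, pow_succ, ← mul_assoc]
      cases a
      · exact (hdi (D l) (DP l).2 _ ih).1
      · exact (hdi (D l) (DP l).2 _ ih).2
  have hdiam : VanishingDiam D := by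
    intro x
    have h2 : Tendsto (fun n : ℕ => ENNReal.ofReal (r * (2 / 3) ^ n)) atTop (𝓝 0) := by
      have := ENNReal.tendsto_ofReal ((tendsto_pow_atTop_nhds_zero_of_lt_one
        (show (0 : ℝ) ≤ 2 / 3 by norm_num) (by norm_num)).const_mul r)
      simpa using this
    refine tendsto_of_tendsto_of_tendsto_of_le_of_le tendsto_const_nhds h2
      (fun _ => zero_le) fun n => ?_
    have := Metric.ediam_le_of_forall_dist_le (hd (res x n))
    rwa [res_length] at this
  have hdisj' : CantorScheme.Disjoint D := by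
    rintro l (a | a) (b | b) hab <;> try contradiction
    · exact hdisj _ _
    · exact (hdisj _ _).symm
  have hdom : ∀ {x : ℕ → Bool}, x ∈ (inducedMap D).1 := fun {x} => by
    rw [hanti.map_of_vanishingDiam hdiam fun l => (DP l).2.2.2.1]
    apply mem_univ
  refine ⟨fun x => (inducedMap D).2 ⟨x, hdom⟩, ?_, ?_, ?_⟩
  · apply hdiam.map_continuous.comp
    fun_prop
  · intro x y hxy
    simpa only [← Subtype.val_inj] using hdisj'.map_injective hxy
  · refine Subset.antisymm ?_ fun x hx => ?_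
    · rintro y ⟨x, rfl⟩
      exact map_mem ⟨_, hdom⟩ 0
    · let l : ℕ → List Bool := fun n =>
        Nat.rec [] (fun _ ih => (decide (x ∉ D (false :: ih))) :: ih) n
      let s : ℕ → Bool := fun n => decide (x ∉ D (false :: l n))
      have hres : ∀ n, res s n = l n := by
        intro n
        induction n with
        | zero => rfl
        | succ n ih => rw [res_succ, ih]
      have hmem : ∀ n, x ∈ D (l n) := by
        intro n
        induction n with
        | zero => exact hx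
        | succ n ih =>
          show x ∈ D (decide (x ∉ D (false :: l n)) :: l n)
          by_cases e : x ∈ D (false :: l n)
          · rw [decide_eq_false (not_not.2 e)]; exact e
          · rw [decide_eq_true e]
            rw [← hun (D (l n)) (DP (l n)).2] at ih
            exact ih.resolve_left e
      refine ⟨s, eq_of_forall_dist_le fun ε hε => ?_⟩
      obtain ⟨n, hn⟩ := hdiam.dist_lt ε hε s
      exact (hn _ (map_mem ⟨s, hdom⟩ n) x (by rw [hres]; exact hmem n)).le

theorem circle_cantor {K : Set Circle} (hp : Perfect K) (hne : K.Nonempty) (hi : interior K = ∅)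
    (h1 : (1 : Circle) ∉ K) : Nonempty (K ≃ₜ cantorSet) := by
  have hopen : IsOpenMap Circle.exp := Circle.isCoveringMap_exp.isLocalHomeomorph.isOpenMap
  set C : Set ℝ := Ioo 0 (2 * π) ∩ Circle.exp ⁻¹' K with hC
  have hCe : C = Icc 0 (2 * π) ∩ Circle.exp ⁻¹' K := by
    ext t
    refine ⟨fun h => ⟨Ioo_subset_Icc_self h.1, h.2⟩, fun h => ⟨⟨lt_of_le_of_ne h.1.1 ?_,
      lt_of_le_of_ne h.1.2 ?_⟩, h.2⟩⟩
    · rintro rfl
      exact h1 (by simpa using h.2)
    · rintro rfl
      exact h1 (by simpa using h.2)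
  have hcomp : IsCompact C := by
    rw [hCe]
    exact isCompact_Icc.inter_right (hp.closed.preimage Circle.exp.continuous)
  have hsurj : ∀ z ∈ K, ∃ t ∈ C, Circle.exp t = z := by
    intro z hz
    obtain ⟨t, ht, e⟩ := Circle.surjOn_exp_neg_pi_pi (mem_univ (-z))
    have e' : Circle.exp (t + π) = z := by
      rw [Circle.exp_add, e]
      apply Circle.ext
      simp
    refine ⟨t + π, ?_, e'⟩
    rw [hCe]
    exact ⟨⟨by linarith [ht.1], by linarith [ht.2]⟩, by rw [mem_preimage, e']; exact hz⟩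
  have hCs : Cs C := by
    refine ⟨hcomp, ⟨hcomp.isClosed, preperfect_iff_nhds.2 fun t ht U hU => ?_⟩, ?_, ?_⟩
    · obtain ⟨_, ⟨⟨y, hy, rfl⟩, hyK⟩, hne⟩ := preperfect_iff_nhds.1 hp.acc _ ht.2 _
        (hopen.image_mem_nhds (inter_mem hU (isOpen_Ioo.mem_nhds ht.1)))
      exact ⟨y, ⟨hy.1, hy.2, hyK⟩, fun e => hne (by rw [e])⟩
    · obtain ⟨z, hz⟩ := hne
      obtain ⟨t, ht, -⟩ := hsurj z hz
      exact ⟨t, ht⟩
    · have h2 : Circle.exp '' interior C ⊆ interior K :=
        interior_maximal (by rintro _ ⟨t, ht, rfl⟩; exact (interior_subset ht).2)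
          (hopen _ isOpen_interior)
      rw [hi, subset_empty_iff, image_eq_empty] at h2
      exact h2
  obtain ⟨f, hf, hinj, hr⟩ := hCs.param
  have hfC : ∀ x, f x ∈ C := fun x => hr ▸ mem_range_self x
  let e : (ℕ → Bool) → K := fun x => ⟨Circle.exp (f x), (hfC x).2⟩
  have he : Function.Bijective e := by
    constructor
    · intro x y hxy
      apply hinj
      exact Circle.exp_injOn_Ico (a := 0) (b := 2 * π) (by simp) (Ioo_subset_Ico_self (hfC x).1)
        (Ioo_subset_Ico_self (hfC y).1) (congrArg Subtype.val hxy)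
    · rintro ⟨z, hz⟩
      obtain ⟨t, ht, e'⟩ := hsurj z hz
      rw [← hr] at ht
      obtain ⟨x, rfl⟩ := ht
      exact ⟨x, Subtype.ext e'⟩
  have hec : Continuous (Equiv.ofBijective e he) :=
    (Circle.exp.continuous.comp hf).subtype_mk _
  exact ⟨hec.homeoOfEquivCompactToT2.symm.trans cantorSetHomeomorphNatToBool.symm⟩

theorem minimal_cantor {G : Type*} [Group G] (φ : G →* Equiv.Perm Circle)
    (hc : ∀ g, Continuous (φ g)) {K : Set Circle} (hcl : IsClosed K)
    (hinv : ∀ g, φ g '' K ⊆ K)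
    (hmin : ∀ L : Set Circle, L ⊆ K → IsClosed L → L.Nonempty → (∀ g, φ g '' L ⊆ L) → L = K)
    (hinf : K.Infinite) (h1 : (1 : Circle) ∉ K) : Nonempty (K ≃ₜ cantorSet) := by
  refine circle_cantor ?_ hinf.nonempty ?_ h1
  · rw [perfect_iff_eq_derivedSet]
    refine (hmin _ (isClosed_iff_derivedSet_subset K |>.1 hcl) (isClosed_derivedSet K) ?_
      fun g => ?_).symm
    · obtain ⟨x, -, hx⟩ := hinf.exists_accPt_of_subset_isCompact isCompact_univ (subset_univ K)
      exact ⟨x, hx⟩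
    · exact ((hc g).image_derivedSet (φ g).injective).trans (derivedSet_mono _ _ (hinv g))
  · have h2 : frontier K = K := by
      refine hmin _ hcl.frontier_subset isClosed_frontier ?_ fun g => ?_
      · exact nonempty_frontier_iff.2 ⟨hinf.nonempty, fun e => h1 (e ▸ mem_univ _)⟩
      · rintro _ ⟨z, hz, rfl⟩
        rw [hcl.frontier_eq] at hz ⊢
        refine ⟨hinv g ⟨z, hz.1, rfl⟩, fun h => hz.2 ?_⟩
        refine interior_maximal (t := φ g ⁻¹' interior K) (fun w hw => ?_)
          (isOpen_interior.preimage (hc g)) h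
        have := hinv g⁻¹ ⟨_, interior_subset hw, rfl⟩
        simpa using this
    have h3 := disjoint_interior_frontier (s := K)
    rw [h2] at h3
    exact h3.eq_bot_of_le interior_subset

theorem pp_of_finite' {K : Set Circle} (hK : K.Finite) {i j : Fin 3} (hij : i ≠ j)
    (hinv : ∀ z ∈ K, ((sg i * sg j) * (sg i * sg j)) z ∈ K) {z : Circle} (hz : z ∈ K)
    (hq : qf j z < 1) : 1 < qf i z := by
  set f : Equiv.Perm Circle := (sg i * sg j) * (sg i * sg j) with hf
  have hstep0 : ∀ w, qf j w < 1 → 1 < qf i ((sg i * sg j) w) := fun w hw =>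
    sg_pp i _ (qf_sep hij _ (sg_pp j w hw).le)
  have hstep : ∀ w, qf j w < 1 → 1 < qf i (f w) := fun w hw =>
    hstep0 _ (qf_sep hij.symm _ (hstep0 w hw).le)
  have hmem : ∀ n : ℕ, (f ^ n) z ∈ K := by
    intro n
    induction n with
    | zero => exact hz
    | succ n ih => rw [pow_succ', Equiv.Perm.mul_apply]; exact hinv _ ih
  have hX : ∀ n : ℕ, 1 < qf i ((f ^ (n + 1)) z) := by
    intro n
    induction n with
    | zero => simpa using hstep z hq
    | succ n ih =>
      rw [pow_succ', Equiv.Perm.mul_apply]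
      exact hstep _ (qf_sep hij.symm _ ih.le)
  obtain ⟨a, b, hab, e⟩ := hK.exists_lt_map_eq_of_forall_mem hmem
  obtain ⟨k, rfl⟩ : ∃ k, b = a + (k + 1) := ⟨b - a - 1, by omega⟩
  rw [pow_add, Equiv.Perm.mul_apply] at e
  have e2 := (f ^ a).injective e
  have := hX k
  rwa [← e2] at this

theorem infinite_of_inv' {K : Set Circle} (hne : K.Nonempty)
    (hinv : ∀ i j, ∀ z ∈ K, ((sg i * sg j) * (sg i * sg j)) z ∈ K) : K.Infinite := by
  intro hK
  obtain ⟨z, hz⟩ := hne
  by_cases h0 : qf 0 z < 1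
  · have h1 := pp_of_finite' hK (show (1 : Fin 3) ≠ 0 by decide) (hinv _ _) hz h0
    have h2 := pp_of_finite' hK (show (2 : Fin 3) ≠ 0 by decide) (hinv _ _) hz h0
    have := qf_sep (show (1 : Fin 3) ≠ 2 by decide) z h2.le
    linarith
  · have h1 := qf_sep (show (1 : Fin 3) ≠ 0 by decide) z (not_lt.mp h0)
    have h2 := pp_of_finite' hK (show (2 : Fin 3) ≠ 1 by decide) (hinv _ _) hz h1
    have := qf_sep (show (0 : Fin 3) ≠ 2 by decide) z h2.le
    exact h0 this

theorem comm_ne_one {u δ : Equiv.Perm Circle} {j : Fin 3} (hδ : Red j δ⁻¹)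
    (hfix : ∀ z : Circle, (z : ℂ).re ≤ 4 / 5 → u z = z) (h1 : u 1 ≠ 1) :
    δ * u * δ⁻¹ * u⁻¹ ≠ 1 := by
  intro e
  rw [mul_inv_eq_one] at e
  have e1 := congrArg (fun f : Equiv.Perm Circle => f 1) e
  have h2 := hδ.maps 1 (by rw [Circle.coe_one, Complex.one_re]; norm_num)
  have h3 : ((δ⁻¹ 1 : Circle) : ℂ).re ≤ 4 / 5 := by
    by_contra hcon
    have := qf_J j _ (not_le.mp hcon)
    linarith
  simp only [Equiv.Perm.mul_apply] at e1
  rw [hfix _ h3, perm_apply_inv] at e1
  exact h1 e1.symm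

theorem red_eight : Red 0 ((((sg 1 * sg 0) * (sg 1 * sg 0)) * ((sg 1 * sg 0) * (sg 1 * sg 0)))⁻¹) := by
  have h01 : (0 : Fin 3) ≠ 1 := by decide
  have := Red.step 0 1 _ h01 (Red.step 1 0 _ h01.symm (Red.step 0 1 _ h01 (Red.step 1 0 _ h01.symm
    (Red.step 0 1 _ h01 (Red.step 1 0 _ h01.symm (Red.step 0 1 _ h01 (Red.base 1)))))))
  simpa only [mul_inv_rev, sg_inv, mul_assoc] using this

theorem exists_arc_diffeo' : ∃ h : Equiv.Perm Circle, Sm h ∧ Sm h.symm ∧
    (∀ z : Circle, (z : ℂ).re ≤ 4 / 5 → h z = z) ∧ h (h (h (h 1))) ≠ 1 := by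
  obtain ⟨f, hf, hf', hid, hge, h0⟩ := exists_line_diffeo
  have hid' : ∀ x, 1 / 2 ≤ |x| → f.symm x = x := fun x hx => by
    rw [OrderIso.symm_apply_eq, hid x hx]
  refine ⟨⟨circ f, circ f.symm, fun z => ?_, fun z => ?_⟩, circ_sm hid hf, circ_sm hid' hf',
    circ_fix hid, ?_⟩
  · rw [circ, arg_circ f hid, OrderIso.symm_apply_apply, Circle.exp_arg]
  · rw [circ, arg_circ f.symm hid', OrderIso.apply_symm_apply, Circle.exp_arg]
  · intro h
    have h1 : Complex.arg (circ f (circ f (circ f (circ f 1)))) = Complex.arg ((1 : Circle) : ℂ) :=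
      congrArg (fun z : Circle => Complex.arg z) h
    rw [arg_circ f hid, arg_circ f hid, arg_circ f hid, arg_circ f hid, Circle.coe_one,
      Complex.arg_one] at h1
    linarith [hge (f 0), hge (f (f 0)), hge (f (f (f 0)))]

end Pool.Agent.Work.MP_3070fc_an
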